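import Pool.Agent.H83.FF.Prong

/-! A forward half-leaf meets an incoming prong or accumulates on the level set `D = v`. -/

namespace Pool.Agent.H83.FF

open Set Filter Topology
open Pool.Agent.H56.AS Pool.Agent.H56.FF

variable {X : Type*} [TopologicalSpace X]

theorem dfan [CompactSpace X] [T2Space X] {A : AffineSurface X} {D : X → ℂ}
    (hD : FanField A D) {k : X → ℕ} {c : X → OpenPartialHomeomorph X ℂ}
    (hc : ∀ s ∈ A.sing, ConeAt A s (k s) (c s)) {v : ℂ} (hv : ‖v‖ = 1)
    {p : X} (hp : p ∉ A.sing) (hpv : (D p * (starRingEnd ℂ) v).im ≠ 0) :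
    FwdS A k c v p ∨ ∃ x, D x = v ∧ x ∈ closure {q | Reach A v p q} := by
  have hvv : v * (starRingEnd ℂ) v = 1 := by
    rw [Complex.mul_conj, Complex.normSq_eq_norm_sq, hv]
    simp
  have hv0 : v ≠ 0 := by
    intro h0
    rw [h0, norm_zero] at hv
    exact zero_ne_one hv
  have hn : ∀ x : ℂ, ‖x‖ = 1 →
      (x * (starRingEnd ℂ) v).re ^ 2 + (x * (starRingEnd ℂ) v).im ^ 2 = 1 := by
    intro x hx
    have h1 : ‖x * (starRingEnd ℂ) v‖ = 1 := by
      rw [norm_mul, RCLike.norm_conj, hx, hv, one_mul]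
    have h2 : Complex.normSq (x * (starRingEnd ℂ) v) = 1 := by
      rw [Complex.normSq_eq_norm_sq, h1, one_pow]
    rw [Complex.normSq_apply] at h2
    nlinarith
  have hpS : p ∈ closure {q | Reach A v p q} := subset_closure (Reach.refl hp)
  have hcont : Continuous fun x => (D x * (starRingEnd ℂ) v).re :=
    Complex.continuous_re.comp (hD.cont.mul continuous_const)
  obtain ⟨x, hxK, hxmax⟩ := (isClosed_closure (s := {q | Reach A v p q})).isCompact.exists_isMaxOn
    ⟨p, hpS⟩ hcont.continuousOn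
  have hmax : ∀ y ∈ closure {q | Reach A v p q},
      (D y * (starRingEnd ℂ) v).re ≤ (D x * (starRingEnd ℂ) v).re := fun y hy => hxmax hy
  have hp1 : -1 < (D p * (starRingEnd ℂ) v).re := by
    have h1 := hn _ (hD.norm p)
    have h2 : 0 < (D p * (starRingEnd ℂ) v).im ^ 2 := by positivity
    nlinarith
  have hx1 : -1 < (D x * (starRingEnd ℂ) v).re := lt_of_lt_of_le hp1 (hmax p hpS)
  by_cases him : (D x * (starRingEnd ℂ) v).im = 0
  · right
    refine ⟨x, ?_, hxK⟩
    have h1 := hn _ (hD.norm x)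
    rw [him] at h1
    have h2 : (D x * (starRingEnd ℂ) v).re = 1 := by nlinarith
    have h3 : D x * (starRingEnd ℂ) v = 1 := Complex.ext (by rw [h2]; simp) (by rw [him]; simp)
    calc D x = D x * (v * (starRingEnd ℂ) v) := by rw [hvv, mul_one]
      _ = (D x * (starRingEnd ℂ) v) * v := by ring
      _ = v := by rw [h3, one_mul]
  by_cases hxs : x ∈ A.sing
  · -- a cone point
    have hcx := hc x hxs
    obtain ⟨m, hm⟩ : ∃ m, m = k x := ⟨_, rfl⟩
    obtain ⟨d, hd⟩ : ∃ d, d = c x := ⟨_, rfl⟩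
    rw [← hm, ← hd] at hcx
    have hk := hcx.two
    have hk0 : m ≠ 0 := by omega
    obtain ⟨ρ, hρ, hball⟩ : ∃ ρ > 0, Metric.ball (0 : ℂ) ρ ⊆ d.target := by
      have h1 : (0 : ℂ) ∈ d.target := by
        rw [← hcx.zero]
        exact d.map_source hcx.mem
      exact Metric.isOpen_iff.1 d.open_target 0 h1
    obtain ⟨T, hT⟩ : ∃ T : ℝ, T = (ρ / 2) ^ m / 2 := ⟨_, rfl⟩
    have hρk : 0 < (ρ / 2) ^ m := pow_pos (by linarith) m
    have hT0 : 0 < T := by rw [hT]; positivity
    have hρρ : (ρ / 2) ^ m ≤ ρ ^ m := pow_le_pow_left₀ (by linarith) (by linarith) m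
    have hcb : Metric.closedBall (0 : ℂ) (ρ / 2) ⊆ d.target :=
      (Metric.closedBall_subset_ball (by linarith)).trans hball
    have hhc : ContinuousOn (fun z => (D (d.symm z) * (starRingEnd ℂ) v).re)
        (Metric.closedBall (0 : ℂ) (ρ / 2)) :=
      hcont.comp_continuousOn (d.continuousOn_symm.mono hcb)
    obtain ⟨δ, hδ, hδK⟩ : ∃ δ > 0, ∀ z ∈ Metric.closedBall (0 : ℂ) (ρ / 2),
        (D (d.symm z) * (starRingEnd ℂ) v).re ≤ (D x * (starRingEnd ℂ) v).re →
        δ ≤ ‖z ^ m - (T : ℂ) * v‖ := by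
      obtain ⟨K, hK⟩ : ∃ K : Set ℂ, K = Metric.closedBall (0 : ℂ) (ρ / 2) ∩
          (fun z => (D (d.symm z) * (starRingEnd ℂ) v).re) ⁻¹'
            Iic ((D x * (starRingEnd ℂ) v).re) := ⟨_, rfl⟩
      have hKc : IsCompact K := by
        refine (isCompact_closedBall (0 : ℂ) (ρ / 2)).of_isClosed_subset ?_ ?_
        · rw [hK]
          exact hhc.preimage_isClosed_of_isClosed Metric.isClosed_closedBall isClosed_Iic
        · rw [hK]
          exact inter_subset_left
      rcases K.eq_empty_or_nonempty with h0 | h0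
      · refine ⟨1, one_pos, fun z hz hzh => ?_⟩
        exfalso
        have h1 : z ∈ K := by rw [hK]; exact ⟨hz, hzh⟩
        rw [h0] at h1
        exact h1
      · obtain ⟨z0, hz0, hmin⟩ := hKc.exists_isMinOn h0
          (f := fun z : ℂ => ‖z ^ m - (T : ℂ) * v‖) (by fun_prop)
        refine ⟨‖z0 ^ m - (T : ℂ) * v‖, ?_, fun z hz hzh => ?_⟩
        · refine norm_pos_iff.2 fun h1 => ?_
          rw [hK] at hz0
          have h2 := prong_out hD hv hcx hρ hball
            (Metric.closedBall_subset_ball (by linarith) hz0.1) hT0 (sub_eq_zero.1 h1) him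
          exact absurd hz0.2 (not_le.2 h2)
        · have h1 : z ∈ K := by rw [hK]; exact ⟨hz, hzh⟩
          exact hmin h1
    have hnc : ContinuousAt (fun q : X => ‖d q‖) x := (d.continuousAt hcx.mem).norm
    have ev1 : ∀ᶠ q in 𝓝 x, ‖d q‖ ^ m < min δ T := by
      refine (hnc.pow m).eventually (gt_mem_nhds ?_)
      show ‖d x‖ ^ m < min δ T
      rw [hcx.zero, norm_zero, zero_pow hk0]
      exact lt_min hδ hT0
    have ev2 : ∀ᶠ q in 𝓝 x, q ∈ d.source := d.open_source.mem_nhds hcx.mem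
    obtain ⟨q, ⟨h1, h2⟩, hqS⟩ := mem_closure_iff_nhds.1 hxK _ (ev1.and ev2)
    have hqS' : Reach A v p q := hqS
    have hqx : q ≠ x := by
      intro h0
      exact hqS'.right (h0 ▸ hxs)
    by_cases hpr : ∃ r : ℝ, 0 < r ∧ (d q) ^ m = -((r : ℂ) * v)
    · left
      obtain ⟨r, hr, hqr⟩ := hpr
      refine ⟨x, hxs, q, ?_, hqS', r, hr, ?_⟩
      · rw [← hd]; exact h2
      · rw [← hd, ← hm]; exact hqr
    · exfalso
      have h3 : ‖d q‖ ^ m + T < (ρ / 2) ^ m := by
        have := lt_of_lt_of_le h1 (min_le_right _ _)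
        rw [hT] at this ⊢
        linarith
      obtain ⟨q', hq'c, hqq', hq'k⟩ := cone_move hv hk hcx.mem hcx.zero hcx.reg hcx.rel hρ hball h2
        hqx hT0.le (lt_of_lt_of_le h3 hρρ) hpr
      have h5 : Reach A v p q' := hqS'.trans hqq'
      have h6 := hmax q' (subset_closure h5)
      have h7 : ‖d q'‖ ≤ ρ / 2 := by
        apply le_of_pow_le_pow_left₀ hk0 (by linarith)
        rw [← norm_pow, hq'k]
        calc ‖(d q) ^ m + (T : ℂ) * v‖ ≤ ‖(d q) ^ m‖ + ‖(T : ℂ) * v‖ := norm_add_le _ _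
          _ = ‖d q‖ ^ m + T := by
            rw [norm_pow, norm_mul, hv, mul_one, Complex.norm_real, Real.norm_of_nonneg hT0.le]
          _ ≤ (ρ / 2) ^ m := h3.le
      have h8 : d q' ∈ Metric.closedBall (0 : ℂ) (ρ / 2) := by
        rw [Metric.mem_closedBall, dist_zero_right]
        exact h7
      have h9 := hδK (d q') h8 (by rw [d.left_inv hq'c]; exact h6)
      rw [hq'k, add_sub_cancel_right, norm_pow] at h9
      exact absurd (lt_of_lt_of_le h1 (min_le_left _ _)) (not_lt.2 h9)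
  · -- a regular point
    exfalso
    obtain ⟨e, he, hxe⟩ := A.cover x hxs
    obtain ⟨δ, hδ, hsub⟩ := Metric.isOpen_iff.1 e.open_target (e x) (e.map_source hxe)
    have hball : e x + ((δ / 2 : ℝ) : ℂ) * v ∈ Metric.ball (e x) δ := by
      rw [Metric.mem_ball, dist_eq_norm, add_sub_cancel_left, norm_mul, hv, mul_one,
        Complex.norm_real, Real.norm_of_nonneg (by positivity)]
      linarith
    have h4 : e (e.symm (e x + ((δ / 2 : ℝ) : ℂ) * v)) = e x + ((δ / 2 : ℝ) : ℂ) * v :=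
      e.right_inv (hsub hball)
    have hseg : segment ℝ (e x) (e x + ((δ / 2 : ℝ) : ℂ) * v) ⊆ e.target :=
      ((convex_ball (e x) δ).segment_subset (Metric.mem_ball_self hδ) hball).trans hsub
    have hreach : Reach A v x (e.symm (e x + ((δ / 2 : ℝ) : ℂ) * v)) :=
      reach_segment he hxe (e.map_target (hsub hball)) (by positivity) h4 (by rw [h4]; exact hseg)
    rcases fan_strict hD hv hreach him with h5 | h5
    · have h6 := congrArg e h5
      rw [h4] at h6
      have h7 : ((δ / 2 : ℝ) : ℂ) * v = 0 := by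
        linear_combination -h6
      have h8 : ((δ / 2 : ℝ) : ℂ) ≠ 0 := Complex.ofReal_ne_zero.2 (by positivity)
      exact mul_ne_zero h8 hv0 h7
    · exact absurd (hmax _ (closure_inv hxK hreach)) (not_le.2 h5)

end Pool.Agent.H83.FF
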