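import Pool.Agent.H56.FF.Strict
import Pool.Agent.H56.AS.Inv
import Pool.Agent.H56.AS.Cone

/-! Strict turning along an outgoing prong. -/

namespace Pool.Agent.H83.FF

open Set Filter Topology
open Pool.Agent.H56.AS Pool.Agent.H56.FF

variable {X : Type*} [TopologicalSpace X]

/-- along an outgoing prong `D` turns strictly -/
theorem prong_out {A : AffineSurface X} {D : X → ℂ} (hD : FanField A D) {v : ℂ} (hv : ‖v‖ = 1)
    {s : X} {k : ℕ} {c : OpenPartialHomeomorph X ℂ} (hc : ConeAt A s k c)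
    {ρ : ℝ} (hρ : 0 < ρ) (hball : Metric.ball (0 : ℂ) ρ ⊆ c.target) {z : ℂ}
    (hz : z ∈ Metric.ball (0 : ℂ) ρ) {T : ℝ} (hT : 0 < T) (hzT : z ^ k = (T : ℂ) * v)
    (him : (D s * (starRingEnd ℂ) v).im ≠ 0) :
    (D s * (starRingEnd ℂ) v).re < (D (c.symm z) * (starRingEnd ℂ) v).re := by
  have hk := hc.two
  have hk0 : k ≠ 0 := by omega
  have hkp : (0 : ℝ) < 1 / (k : ℝ) := by positivity
  have hv0 : v ≠ 0 := by
    intro h0
    rw [h0, norm_zero] at hv
    exact zero_ne_one hv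
  rw [Metric.mem_ball, dist_zero_right] at hz
  obtain ⟨w, hw⟩ : ∃ w : ℝ → ℂ, w = fun t : ℝ => z * ((t ^ (1 / (k : ℝ)) : ℝ) : ℂ) := ⟨_, rfl⟩
  have hwk : ∀ t : ℝ, 0 ≤ t → (w t) ^ k = ((T * t : ℝ) : ℂ) * v := by
    intro t ht
    rw [hw]
    show (z * ((t ^ (1 / (k : ℝ)) : ℝ) : ℂ)) ^ k = _
    have h1 : (t ^ (1 / (k : ℝ))) ^ k = t := by
      rw [one_div]
      exact Real.rpow_inv_natCast_pow ht hk0
    rw [mul_pow, ← Complex.ofReal_pow, h1, hzT]
    push_cast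
    ring
  have hwb : ∀ t ∈ Icc (0 : ℝ) 1, w t ∈ c.target := by
    intro t ht
    apply hball
    rw [Metric.mem_ball, dist_zero_right]
    refine lt_of_le_of_lt ?_ hz
    rw [hw]
    show ‖z * ((t ^ (1 / (k : ℝ)) : ℝ) : ℂ)‖ ≤ ‖z‖
    rw [norm_mul, Complex.norm_real, Real.norm_of_nonneg (Real.rpow_nonneg ht.1 _)]
    have h1 : t ^ (1 / (k : ℝ)) ≤ 1 := Real.rpow_le_one ht.1 ht.2 hkp.le
    calc ‖z‖ * t ^ (1 / (k : ℝ)) ≤ ‖z‖ * 1 := mul_le_mul_of_nonneg_left h1 (norm_nonneg _)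
      _ = ‖z‖ := mul_one _
  have hwc : Continuous w := by
    rw [hw]
    apply Continuous.mul continuous_const
    apply Complex.continuous_ofReal.comp
    exact Continuous.rpow_const continuous_id (fun _ => Or.inr hkp.le)
  have hw0 : w 0 = 0 := by
    rw [hw]
    show z * (((0 : ℝ) ^ (1 / (k : ℝ)) : ℝ) : ℂ) = 0
    rw [Real.zero_rpow hkp.ne']
    simp
  have hw1 : w 1 = z := by
    rw [hw]
    show z * (((1 : ℝ) ^ (1 / (k : ℝ)) : ℝ) : ℂ) = z
    rw [Real.one_rpow]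
    simp
  have hγc : ContinuousOn (fun t => c.symm (w t)) (Icc 0 1) :=
    c.continuousOn_symm.comp hwc.continuousOn hwb
  have hcγ : ∀ t ∈ Icc (0 : ℝ) 1, c (c.symm (w t)) = w t := fun t ht => c.right_inv (hwb t ht)
  have hγ0 : c.symm (w 0) = s := by
    rw [hw0, ← hc.zero, c.left_inv hc.mem]
  have hreach : ∀ t t' : ℝ, 0 < t → t ≤ t' → t' ≤ 1 →
      Reach A v (c.symm (w t)) (c.symm (w t')) := by
    intro t t' ht htt ht'
    have hsub : Icc t t' ⊆ Icc (0 : ℝ) 1 := Icc_subset_Icc ht.le ht'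
    refine path_reach (A := A) (v := v) (γ := fun t => c.symm (w t)) htt (hγc.mono hsub) ?_
    intro x hx
    have hx1 := hsub hx
    have hx0 : 0 < x := lt_of_lt_of_le ht hx.1
    have hsrc : c.symm (w x) ∈ c.source := c.map_target (hwb x hx1)
    have hne : c.symm (w x) ≠ s := by
      intro h0
      have h1 := congrArg c h0
      rw [hcγ x hx1, hc.zero] at h1
      have h2 := hwk x hx0.le
      rw [h1, zero_pow hk0] at h2
      exact mul_ne_zero (Complex.ofReal_ne_zero.2 (mul_pos hT hx0).ne') hv0 h2.symm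
    obtain ⟨e, he, hxe⟩ := A.cover _ (hc.reg _ hsrc hne)
    obtain ⟨a, ha, b, hab⟩ := hc.rel e he _ hsrc hxe
    refine ⟨e, he, hxe, a * T, mul_pos ha hT, b, ?_⟩
    filter_upwards [((hγc.mono hsub) x hx).tendsto.eventually hab, self_mem_nhdsWithin]
      with y hy hyI
    have hy1 := hsub hyI
    have hy' : e (c.symm (w y)) = (a : ℂ) * (c (c.symm (w y))) ^ k + b := hy
    show e (c.symm (w y)) = _
    rw [hy', hcγ y hy1, hwk y hy1.1]
    push_cast
    ring
  have hcont : ContinuousOn (fun t => D (c.symm (w t)) * (starRingEnd ℂ) v) (Icc 0 1) :=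
    (hD.cont.comp_continuousOn hγc).mul continuousOn_const
  have htend : Tendsto (fun t => D (c.symm (w t)) * (starRingEnd ℂ) v) (𝓝[>] (0 : ℝ))
      (𝓝 (D s * (starRingEnd ℂ) v)) := by
    have h1 := (hcont 0 ⟨le_rfl, zero_le_one⟩).tendsto
    rw [hγ0] at h1
    rw [← nhdsWithin_Ioc_eq_nhdsGT (zero_lt_one' ℝ)]
    exact h1.mono_left (nhdsWithin_mono _ Ioc_subset_Icc_self)
  have hre : Tendsto (fun t => (D (c.symm (w t)) * (starRingEnd ℂ) v).re) (𝓝[>] (0 : ℝ))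
      (𝓝 (D s * (starRingEnd ℂ) v).re) := (Complex.continuous_re.tendsto _).comp htend
  have himt : Tendsto (fun t => (D (c.symm (w t)) * (starRingEnd ℂ) v).im) (𝓝[>] (0 : ℝ))
      (𝓝 (D s * (starRingEnd ℂ) v).im) := (Complex.continuous_im.tendsto _).comp htend
  obtain ⟨t0, ht0im, ht0⟩ :=
    ((himt.eventually_ne him).and (Ioo_mem_nhdsGT (zero_lt_one' ℝ))).exists
  have h1 : (D (c.symm (w t0)) * (starRingEnd ℂ) v).re <
      (D (c.symm (w 1)) * (starRingEnd ℂ) v).re := by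
    rcases fan_strict hD hv (hreach t0 1 ht0.1 ht0.2.le le_rfl) ht0im with h | h
    · exfalso
      have h2 := congrArg c h
      rw [hcγ t0 ⟨ht0.1.le, ht0.2.le⟩, hcγ 1 ⟨zero_le_one, le_rfl⟩] at h2
      have h3 : (w t0) ^ k = (w 1) ^ k := by rw [h2]
      rw [hwk t0 ht0.1.le, hwk 1 zero_le_one] at h3
      have h4 := mul_right_cancel₀ hv0 h3
      have h5 : T * t0 = T * 1 := Complex.ofReal_injective h4
      have h6 := mul_left_cancel₀ hT.ne' h5
      linarith [ht0.2]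
    · exact h
  have h2 : (D s * (starRingEnd ℂ) v).re ≤ (D (c.symm (w t0)) * (starRingEnd ℂ) v).re := by
    refine le_of_tendsto hre ?_
    filter_upwards [Ioo_mem_nhdsGT ht0.1] with t ht
    exact fan_weak hD hv (hreach t t0 ht.1 ht.2.le ht0.2.le)
  rw [hw1] at h1
  exact lt_of_le_of_lt h2 h1

end Pool.Agent.H83.FF
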